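import Pool.Agent.H62.Sct2

set_option autoImplicit false

namespace Pool.Agent.Results.MP_f8852a_lc.Exists

open Pool.Agent.H62.Sct

theorem result : ∃ (X : Type) (_ : TopologicalSpace X), CompactSpace X ∧
    TopologicalSpace.MetrizableSpace X ∧ Infinite (ConnectedComponents X) ∧ SCT X :=
  ⟨XS, inferInstance, inferInstance, inferInstance, inf_comp, sct_XS⟩

end Pool.Agent.Results.MP_f8852a_lc.Exists
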